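import Pool.Agent.R988.NQ.WF
import Pool.Agent.H5R2.NB.FIN

/-!
# The asymptotic velocity exists almost surely, and vanishes on absolutely continuous states

`Δ_ω = -Δ + ω` on `ℓ²(ℤ^d)`, `ω_j` iid with any law, for instance `P(ω_j = ±1) = 1/2`. For almost every
`ω` the time average over `[0,T]` of the velocity `e^{isΔ_ω} v e^{-isΔ_ω} u` converges in `ℓ²` for every
`u` in `ℓ²`. If the law is not a point mass then for almost every `ω` the limit vanishes for every `u`
in the absolutely continuous subspace, and the second moment of `e^{-itΔ_ω} u` is `o(t²)` for every such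
`u` with finite second moment.
-/

set_option autoImplicit false

open MeasureTheory Filter Topology
open scoped BigOperators ENNReal NNReal InnerProductSpace

namespace Pool.Agent.Results.MP_d0f69c_mp.AsymptoticVelocity

/-- `ℓ²(ℤ^d)` -/
abbrev L2 (d : ℕ) : Type := lp (fun _ : Fin d → ℤ => ℂ) 2

/-- the operator of the problem, `(Δ_ω u)(j) = -∑_{|n|=1} (u(j+n) - u(j)) + ω_j u(j)` (the unit
vectors `n` are `± e_i`) -/
noncomputable def H {d : ℕ} (ω : (Fin d → ℤ) → ℝ) (u : (Fin d → ℤ) → ℂ) (j : Fin d → ℤ) : ℂ :=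
  -(∑ i : Fin d, ((u (j + Pi.single i 1) - u j) + (u (j - Pi.single i 1) - u j))) + (ω j : ℂ) * u j

/-- `U t = e^{-itΔ_ω}`: norm preserving maps of `ℓ²(ℤ^d)` with `U 0 = 1` and
`i ∂_t (U_t u) = Δ_ω U_t u` at every site -/
structure IsPropagator {d : ℕ} (ω : (Fin d → ℤ) → ℝ) (U : ℝ → L2 d → L2 d) : Prop where
  zero : ∀ u, U 0 u = u
  norm : ∀ t u, ‖U t u‖ = ‖u‖
  schrodinger : ∀ u t j, HasDerivAt (fun s => (U s u) j)
    (-Complex.I * H ω (fun k => (U t u) k) j) t

/-- `v` is the velocity operator `i[Δ_ω, x_i]`, `(v u)(j) = -i (u(j+e_i) - u(j-e_i))` -/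
def IsVelocity {d : ℕ} (i : Fin d) (v : L2 d → L2 d) : Prop :=
  ∀ u j, (v u) j = -Complex.I * (u (j + Pi.single i 1) - u (j - Pi.single i 1))

/-- the spectral measure of `u` (the finite measure `m` with
`⟨u, e^{-itΔ_ω} u⟩ = ∫ e^{-itE} dm(E)`) is absolutely continuous: `u` is in the absolutely
continuous subspace -/
def IsAC {d : ℕ} (U : ℝ → L2 d → L2 d) (u : L2 d) : Prop :=
  ∃ m : Measure ℝ, IsFiniteMeasure m ∧ m ≪ volume ∧
    ∀ t : ℝ, ⟪u, U t u⟫_ℂ = ∫ E : ℝ, Complex.exp (-(Complex.I * t * E)) ∂m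

/-- the second moment `∑_x |x|² |u(x)|²` of the position in the state `u` -/
noncomputable def secondMoment {d : ℕ} (u : L2 d) : ℝ≥0∞ :=
  ∑' x : Fin d → ℤ, ENNReal.ofReal (∑ i : Fin d, (x i : ℝ) ^ 2) * ‖u x‖ₑ ^ 2

/-- the law of iid variables with law `μ` on `ℤ^d` -/
noncomputable def iid (d : ℕ) (μ : Measure ℝ) : Measure ((Fin d → ℤ) → ℝ) :=
  Measure.infinitePi fun _ => μ

/-- the time average over `[0,T]` of the velocity at time `s`, `U_{-s} v U_s`, applied to `u` -/
noncomputable def average {d : ℕ} (U : ℝ → L2 d → L2 d) (v : L2 d → L2 d) (T : ℝ)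
    (u : L2 d) : L2 d :=
  ((T : ℂ)⁻¹) • ∫ s in (0 : ℝ)..T, U (-s) (v (U s u))

open Pool.Agent.H5R2.NB

theorem sol_of_prop {d : ℕ} {ω : (Fin d → ℤ) → ℝ} {U : ℝ → L2 d → L2 d}
    (hU : IsPropagator ω U) (u : L2 d) :
    IsSol (-1) (fun x => 2 * d + 1 * ω x) (fun t => U t u) (fun _ => 0) := by
  refine ⟨fun T => ⟨‖u‖, fun t _ => (hU.norm t u).le⟩, fun t x => ?_⟩
  have h := hU.schrodinger u t x
  have e := FIN.hop_eq ω (fun k => (U t u) k) x
  have e2 : -Complex.I * (hopf (-1) (fun y => (U t u) y) x +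
      (((fun x => 2 * d + 1 * ω x) x : ℝ) : ℂ) * (U t u) x) + ((0 : L2 d) : (Fin d → ℤ) → ℂ) x =
      -Complex.I * H ω (fun k => (U t u) k) x := by
    have e3 : H ω (fun k => (U t u) k) x = -(∑ i : Fin d,
        (((U t u) (x + Pi.single i 1) - (U t u) x) + ((U t u) (x - Pi.single i 1) - (U t u) x))) +
        (ω x : ℂ) * (U t u) x := rfl
    rw [e3, ← e]
    simp
  rw [e2]
  exact h

theorem prop_of_grp {d : ℕ} {ω : (Fin d → ℤ) → ℝ} {W : UG (Pool.Agent.H5R2.NB.L2 (Site d))}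
    (hW : IsGrp (-1) (fun x => 2 * d + 1 * ω x) W) : IsPropagator ω (fun t u => W.U t u) := by
  refine ⟨W.zero', W.norm', fun u t x => ?_⟩
  have h := (hW u).2 t x
  have e := FIN.hop_eq ω (fun k => (W.U t u) k) x
  have e3 : H ω (fun k => (W.U t u) k) x = -(∑ i : Fin d,
        (((W.U t u) (x + Pi.single i 1) - (W.U t u) x) +
          ((W.U t u) (x - Pi.single i 1) - (W.U t u) x))) + (ω x : ℂ) * (W.U t u) x := rfl
  rw [e3, ← e]
  simpa using h

theorem prop_eq {d : ℕ} {ω : (Fin d → ℤ) → ℝ} {W : UG (Pool.Agent.H5R2.NB.L2 (Site d))}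
    (hW : IsGrp (-1) (fun x => 2 * d + 1 * ω x) W) {U : ℝ → L2 d → L2 d}
    (hU : IsPropagator ω U) (t : ℝ) (u : L2 d) : U t u = W.U t u := by
  have h := Pool.Agent.H5R2.NB.ALL.a_UN d (-1) _ W hW (fun t => U t u) (fun _ => 0)
    continuous_const (sol_of_prop hU u) t
  simpa [hU.zero u] using h

theorem second_eq {d : ℕ} (u : L2 d) :
    secondMoment u = ∑ j : Fin d, Pool.Agent.R988.NQ.m2 j u := by
  unfold secondMoment Pool.Agent.R988.NQ.m2
  have e2 : ∀ x : Site d, ENNReal.ofReal (∑ i : Fin d, (x i : ℝ) ^ 2) *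
      ‖u x‖ₑ ^ 2 = ∑ j : Fin d, ENNReal.ofReal ((x j : ℝ) ^ 2) * ‖u x‖ₑ ^ 2 := by
    intro x
    rw [ENNReal.ofReal_sum_of_nonneg (fun i _ => sq_nonneg _), Finset.sum_mul]
  simp_rw [e2]
  rw [Summable.tsum_finsetSum (fun i _ => ENNReal.summable)]

theorem tendsto_aux {a : ℝ≥0∞} (ha : a ≠ ∞) {g : ℝ → ℝ≥0∞}
    (hg : Tendsto (fun t : ℝ => g t / ENNReal.ofReal (t ^ 2)) atTop (𝓝 0)) :
    Tendsto (fun t : ℝ => (2 * a + 2 * g t) / ENNReal.ofReal (t ^ 2)) atTop (𝓝 0) := by
  have h1 : Tendsto (fun t : ℝ => 2 * a / ENNReal.ofReal (t ^ 2)) atTop (𝓝 0) := by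
    have hp : Tendsto (fun t : ℝ => ENNReal.ofReal (t ^ 2)) atTop (𝓝 ∞) :=
      ENNReal.tendsto_ofReal_atTop.comp (tendsto_pow_atTop (by norm_num))
    have h2a : 2 * a ≠ ∞ := ENNReal.mul_ne_top (by norm_num) ha
    have := ENNReal.Tendsto.const_div (a := 2 * a) hp (Or.inr h2a)
    simpa using this
  have h2 := ENNReal.Tendsto.const_mul (a := 2) hg (Or.inr (by norm_num))
  have h3 := h1.add h2
  simp only [mul_zero, add_zero] at h3
  refine h3.congr fun t => ?_
  rw [ENNReal.add_div, mul_div_assoc (2 : ℝ≥0∞) (g t)]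

/-- For every law `μ`: the unitary group `e^{-itΔ_ω}` exists and is unique for every `ω`, and for almost
every `ω` (iid with law `μ`), (a) for every direction there is a map `w` of `ℓ²` (the asymptotic
velocity) such that for every `u` in `ℓ²` the time average over `[0,T]` of `e^{isΔ_ω} v e^{-isΔ_ω} u`
converges in `ℓ²` to `w u` as `T → ∞`, and `w` commutes with `e^{-itΔ_ω}`; (b) if `μ` is not a point
mass, `w u = 0` for every `u` in the absolutely continuous subspace, and (c) for every such `u` with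
finite second moment the second moment of `e^{-itΔ_ω} u` is `o(t²)` as `t → ∞`. -/
theorem result (d : ℕ) (μ : Measure ℝ) [IsProbabilityMeasure μ] :
    (∀ ω : (Fin d → ℤ) → ℝ, ∃! U : ℝ → L2 d → L2 d, IsPropagator ω U) ∧
    ∀ U : ((Fin d → ℤ) → ℝ) → ℝ → L2 d → L2 d, (∀ ω, IsPropagator ω (U ω)) →
      ∀ᵐ ω ∂(iid d μ),
        (∀ i : Fin d, ∃ v w : L2 d → L2 d, IsVelocity i v ∧
          (∀ u : L2 d, Tendsto (fun T : ℝ => average (U ω) v T u) atTop (𝓝 (w u))) ∧
          (∀ t u, w (U ω t u) = U ω t (w u)) ∧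
          ((∀ r : ℝ, μ {r} ≠ 1) → ∀ u : L2 d, IsAC (U ω) u → w u = 0)) ∧
        ((∀ r : ℝ, μ {r} ≠ 1) → ∀ u : L2 d, IsAC (U ω) u → secondMoment u ≠ ∞ →
          Tendsto (fun t : ℝ => secondMoment (U ω t u) / ENNReal.ofReal (t ^ 2)) atTop (𝓝 0)) := by
  refine ⟨fun ω => ?_, fun U hU => ?_⟩
  · obtain ⟨W, hW⟩ := Pool.Agent.H5R2.NB.ALL.a_EX d (-1) (fun x => 2 * d + 1 * ω x)
    refine ⟨fun t u => W.U t u, prop_of_grp hW, fun U hU => ?_⟩
    funext t u
    exact prop_eq hW hU t u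
  · choose ev hev using fun V : Site d → ℝ => Pool.Agent.H5R2.NB.ALL.a_EX d (-1) V
    choose v hv using fun i : Fin d => (t_OPS d).2.2 (-1 : ℝ) i
    have hg : Measurable (fun r : ℝ => 2 * (d : ℝ) + 1 * r) := by fun_prop
    have hpm : IsProbabilityMeasure (μ.map fun r : ℝ => 2 * (d : ℝ) + 1 * r) :=
      Measure.isProbabilityMeasure_map hg.aemeasurable
    have hne : (∀ r : ℝ, μ {r} ≠ 1) → ∀ κ : ℝ, (μ.map fun r : ℝ => 2 * (d : ℝ) + 1 * r) {κ} ≠ 1 := by
      intro hμ κ
      rw [Measure.map_apply hg (measurableSet_singleton κ)]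
      have : (fun r : ℝ => 2 * (d : ℝ) + 1 * r) ⁻¹' {κ} = {κ - 2 * d} := by
        ext r
        simp only [Set.mem_preimage, Set.mem_singleton_iff]
        constructor <;> intro h <;> linarith
      rw [this]
      exact hμ _
    have hmap : (iid d μ).map (fun (ω : Site d → ℝ) (x : Site d) => 2 * (d : ℝ) + 1 * ω x) =
        PP d (μ.map fun r : ℝ => 2 * (d : ℝ) + 1 * r) := by
      unfold PP iid
      exact Measure.infinitePi_map_pi (μ := fun _ : Site d => μ) (fun _ => hg)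
    have hgm : Measurable (fun (ω : Site d → ℝ) (x : Site d) => 2 * (d : ℝ) + 1 * ω x) :=
      measurable_pi_iff.2 fun x => hg.comp (measurable_pi_apply x)
    have hUe : ∀ ω t u, U ω t u = (ev fun x => 2 * (d : ℝ) + 1 * ω x).U t u := by
      intro ω t u
      exact prop_eq (hev _) (hU ω) t u
    have hall : ∀ᵐ V ∂(PP d (μ.map fun r : ℝ => 2 * (d : ℝ) + 1 * r)), ∀ i : Fin d,
        ∃ B : Pool.Agent.H5R2.NB.L2 (Site d) →L[ℂ] Pool.Agent.H5R2.NB.L2 (Site d),
        (∀ x, Tendsto (fun N : ℕ => avP (ev V) (v i) N x) atTop (𝓝 (B x))) ∧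
        ((∀ κ : ℝ, (μ.map fun r : ℝ => 2 * (d : ℝ) + 1 * r) {κ} ≠ 1) →
          ∀ ψ ∈ Pool.Agent.H5R2.NBA.HAC (ev V), B ψ = 0) := by
      rw [ae_all_iff]
      intro i
      exact Pool.Agent.R988.NQ.asymptotic hev (hv i)
    rw [← hmap] at hall
    have hall2 := ae_of_ae_map hgm.aemeasurable hall
    filter_upwards [hall2] with ω hω
    choose B hB hB0 using hω
    have hac : ∀ u : L2 d, IsAC (U ω) u →
        u ∈ Pool.Agent.H5R2.NBA.HAC (ev fun x => 2 * (d : ℝ) + 1 * ω x) := by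
      rintro u ⟨m, h1, h2, h3⟩
      refine Pool.Agent.H5R2.NBA.ALL.a_SPEC _ _ _ ⟨m, h1, h2, fun t => ?_⟩
      rw [← h3 t, hUe]
    have havg : ∀ (i : Fin d) (u : L2 d), Tendsto (fun T : ℝ => average (U ω) (fun u => v i u) T u)
        atTop (𝓝 (B i u)) := by
      intro i u
      have h := Pool.Agent.R988.NQ.real_times' (ev fun x => 2 * (d : ℝ) + 1 * ω x) (v i) u (B i u)
        (hB i u)
      refine h.congr fun T => ?_
      unfold average
      congr 1
      refine intervalIntegral.integral_congr fun s _ => ?_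
      show _ = U ω (-s) (v i (U ω s u))
      rw [hUe, hUe]
    refine ⟨fun i => ⟨fun u => v i u, fun u => B i u, fun u x => ?_, havg i, fun t u => ?_,
      fun hμ u hu => hB0 i (hne hμ) u (hac u hu)⟩, fun hμ u hu hm => ?_⟩
    · have := hv i u x
      rw [this]
      push_cast
      ring
    · have h1 := (hB i ((ev fun x => 2 * (d : ℝ) + 1 * ω x).U t u))
      have h2 : Tendsto (fun k : ℕ => (ev fun x => 2 * (d : ℝ) + 1 * ω x).U t
          (avP (ev fun x => 2 * (d : ℝ) + 1 * ω x) (v i) k u)) atTop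
          (𝓝 ((ev fun x => 2 * (d : ℝ) + 1 * ω x).U t (B i u))) :=
        (((ev fun x => 2 * (d : ℝ) + 1 * ω x).U t).continuous.tendsto _).comp (hB i u)
      have h3 : Tendsto (fun k : ℕ => avP (ev fun x => 2 * (d : ℝ) + 1 * ω x) (v i) k
          ((ev fun x => 2 * (d : ℝ) + 1 * ω x).U t u) -
          (ev fun x => 2 * (d : ℝ) + 1 * ω x).U t
            (avP (ev fun x => 2 * (d : ℝ) + 1 * ω x) (v i) k u)) atTop (𝓝 0) := by
        refine squeeze_zero_norm (fun k => BP.avP_shift _ (v i) k u t) ?_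
        have h4 : Tendsto (fun k : ℕ => (k : ℝ)⁻¹) atTop (𝓝 0) :=
          tendsto_inv_atTop_zero.comp tendsto_natCast_atTop_atTop
        simpa using h4.mul_const (2 * (‖v i‖ * ‖u‖ * |t|))
      have h5 := tendsto_nhds_unique h3 (h1.sub h2)
      show B i (U ω t u) = U ω t (B i u)
      rw [hUe, hUe]
      exact (sub_eq_zero.1 h5.symm)
    · have hterm : ∀ j : Fin d, Tendsto (fun t : ℝ =>
          Pool.Agent.R988.NQ.m2 j (U ω t u) / ENNReal.ofReal (t ^ 2)) atTop (𝓝 0) := by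
        intro j
        have hfin : Pool.Agent.R988.NQ.m2 j u ≠ ∞ := by
          rw [second_eq] at hm
          exact ne_top_of_le_ne_top hm
            (Finset.single_le_sum (f := fun j => Pool.Agent.R988.NQ.m2 j u)
              (fun _ _ => bot_le) (Finset.mem_univ j))
        have h0 : Tendsto (fun N : ℕ => avP (ev fun x => 2 * (d : ℝ) + 1 * ω x) (v j) N u) atTop
            (𝓝 0) := by
          have := hB j u
          rwa [hB0 j (hne hμ) u (hac u hu)] at this
        have hωj := Pool.Agent.R988.NQ.real_times (ev fun x => 2 * (d : ℝ) + 1 * ω x) (v j) u h0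
        have h1 : Tendsto (fun t : ℝ => ‖∫ s in (0 : ℝ)..t,
            (ev fun x => 2 * (d : ℝ) + 1 * ω x).U (-s)
              (v j ((ev fun x => 2 * (d : ℝ) + 1 * ω x).U s u))‖ₑ ^ 2 /
              ENNReal.ofReal (t ^ 2)) atTop (𝓝 0) := by
          have h3 := hωj.pow 2
          rw [zero_pow (two_ne_zero)] at h3
          have h2 := (ENNReal.continuous_ofReal.tendsto 0).comp h3
          rw [ENNReal.ofReal_zero] at h2
          refine h2.congr' ?_
          filter_upwards [eventually_gt_atTop (0 : ℝ)] with t ht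
          simp only [Function.comp]
          rw [mul_pow, mul_comm, inv_pow, ← div_eq_mul_inv,
            ENNReal.ofReal_div_of_pos (by positivity), ENNReal.ofReal_pow (norm_nonneg _),
            ofReal_norm]
          rfl
        refine tendsto_of_tendsto_of_tendsto_of_le_of_le tendsto_const_nhds
          (tendsto_aux hfin h1) (fun t => bot_le) fun t => ?_
        refine ENNReal.div_le_div_right ?_ _
        rw [hUe]
        exact Pool.Agent.R988.NQ.mom_le (-1) _ _ (hev _) j (v j) (hv j) u t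
      have hsum := tendsto_finsetSum (Finset.univ : Finset (Fin d)) (fun j _ => hterm j)
      simp only [Finset.sum_const_zero] at hsum
      refine hsum.congr fun t => ?_
      rw [second_eq, ENNReal.div_eq_inv_mul, Finset.mul_sum]
      refine Finset.sum_congr rfl fun j _ => ?_
      rw [ENNReal.div_eq_inv_mul]

end Pool.Agent.Results.MP_d0f69c_mp.AsymptoticVelocity
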