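import Pool.Agent.R988.NQ.Fix

/-!
# Constants of motion on the absolutely continuous subspace of the Anderson model

`Δ_ω = -Δ + ω` on `ℤ^d`, `ω_j` iid with any law of bounded support which is not a point mass, for
instance `P(ω_j = ±1) = 1/2`. Let `W_ω` be any bounded operators depending measurably on `ω`, which
are almost surely covariant under translations and almost surely commute with `Δ_ω`; no locality
and no self-adjointness is assumed. Then on the absolutely continuous subspace of `Δ_ω` one has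
`W_ω = f(Δ_ω)` with a deterministic bounded Borel function `f`. If the `W_ω` are orthogonal
projections, then `W_ω = 1_S(Δ_ω)` there with a deterministic Borel set `S`: the absolutely
continuous subspace has no covariant decomposition into invariant subspaces other than the
decomposition by the energy.
-/

set_option autoImplicit false

open MeasureTheory Filter Topology
open scoped BigOperators ENNReal NNReal InnerProductSpace

namespace Pool.Agent.Results.MP_d0f69c_mp.ConstantsOfMotion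

/-- `ℓ²(ℤ^d)` -/
abbrev L2 (d : ℕ) : Type := lp (fun _ : Fin d → ℤ => ℂ) 2

/-- potentials on `ℤ^d` -/
abbrev Pot (d : ℕ) : Type := (Fin d → ℤ) → ℝ

/-- the operator of the problem, `(Δ_ω u)(j) = -∑_{|n|=1} (u(j+n) - u(j)) + ω_j u(j)` (the unit
vectors `n` are `± e_i`) -/
noncomputable def H {d : ℕ} (ω : Pot d) (u : (Fin d → ℤ) → ℂ) (j : Fin d → ℤ) : ℂ :=
  -(∑ i : Fin d, ((u (j + Pi.single i 1) - u j) + (u (j - Pi.single i 1) - u j))) + (ω j : ℂ) * u j

/-- `U t = e^{-itΔ_ω}`: norm preserving maps of `ℓ²(ℤ^d)` with `U 0 = 1` and `i ∂_t (U_t u) = Δ_ω U_t u`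
at every site -/
structure IsPropagator {d : ℕ} (ω : Pot d) (U : ℝ → L2 d → L2 d) : Prop where
  zero : ∀ u, U 0 u = u
  norm : ∀ t u, ‖U t u‖ = ‖u‖
  schrodinger : ∀ u t j, HasDerivAt (fun s => (U s u) j)
    (-Complex.I * H ω (fun k => (U t u) k) j) t

/-- `m` is the spectral measure of `u`: the finite measure with
`⟨u, e^{-itΔ_ω} u⟩ = ∫ e^{-itE} dm(E)` -/
def IsSpectral {d : ℕ} (U : ℝ → L2 d → L2 d) (u : L2 d) (m : Measure ℝ) : Prop :=
  IsFiniteMeasure m ∧
    ∀ t : ℝ, ⟪u, U t u⟫_ℂ = ∫ E : ℝ, Complex.exp (-(Complex.I * t * E)) ∂m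

/-- `u` is in the absolutely continuous subspace -/
def IsAC {d : ℕ} (U : ℝ → L2 d → L2 d) (u : L2 d) : Prop :=
  ∃ m : Measure ℝ, IsSpectral U u m ∧ m ≪ volume

/-- `w = f(Δ_ω) u`: with the spectral measure `m` of `u`, `⟨e^{-itΔ_ω} u, w⟩ = ∫ e^{itE} f(E) dm(E)`
for all `t`, and `‖w‖² = ∫ |f|² dm` -/
def IsFunctionOf {d : ℕ} (U : ℝ → L2 d → L2 d) (f : ℝ → ℂ) (u w : L2 d) : Prop :=
  ∃ m : Measure ℝ, IsSpectral U u m ∧
    (∀ t : ℝ, ⟪U t u, w⟫_ℂ = ∫ E : ℝ, Complex.exp (Complex.I * t * E) * f E ∂m) ∧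
    ‖w‖ ^ 2 = ∫ E, ‖f E‖ ^ 2 ∂m

/-- the law of iid variables with law `μ` on `ℤ^d` -/
noncomputable def iid (d : ℕ) (μ : Measure ℝ) : Measure (Pot d) :=
  Measure.infinitePi fun _ => μ

/-- linear operators -/
def Linear {d : ℕ} (W : Pot d → L2 d → L2 d) : Prop :=
  ∀ (ω : Pot d) (c : ℂ) (u w : L2 d), W ω (c • u + w) = c • W ω u + W ω w

/-- bounded, uniformly in `ω` -/
def Bounded {d : ℕ} (W : Pot d → L2 d → L2 d) : Prop :=
  ∃ M : ℝ, ∀ (ω : Pot d) (u : L2 d), ‖W ω u‖ ≤ M * ‖u‖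

/-- `W_ω u` depends measurably on `ω` -/
def MeasurableField {d : ℕ} (W : Pot d → L2 d → L2 d) : Prop :=
  ∀ (u : L2 d) (j : Fin d → ℤ), Measurable fun ω => (W ω u) j

/-- covariant under all translations at `ω`: if `w = u(· + z)` then
`W_{ω(· + z)} w = (W_ω u)(· + z)` -/
def CovariantAt {d : ℕ} (W : Pot d → L2 d → L2 d) (ω : Pot d) : Prop :=
  ∀ (z : Fin d → ℤ) (u w : L2 d), (∀ j, w j = u (j + z)) →
    ∀ j, (W (fun k => ω (k + z)) w) j = (W ω u) (j + z)

/-- `B` commutes with `U_t` for all `t` -/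
def Commutes {d : ℕ} (U : ℝ → L2 d → L2 d) (B : L2 d → L2 d) : Prop :=
  ∀ (t : ℝ) (u : L2 d), B (U t u) = U t (B u)

/-- `W` is a bounded conserved quantity: the linear operators `W_ω` on `ℓ²(ℤ^d)` are bounded
uniformly in `ω`, depend measurably on `ω`, are almost surely covariant under all translations,
and almost surely commute with `e^{-itΔ_ω}` for all `t` -/
structure IsConserved {d : ℕ} (μ : Measure ℝ) (U : Pot d → ℝ → L2 d → L2 d)
    (W : Pot d → L2 d → L2 d) : Prop where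
  linear : Linear W
  bounded : Bounded W
  measurable : MeasurableField W
  covariant : ∀ᵐ ω ∂(iid d μ), CovariantAt W ω
  conserved : ∀ᵐ ω ∂(iid d μ), Commutes (U ω) (W ω)

/-- `P` is an orthogonal projection (if it is linear) -/
def IsProjection {d : ℕ} (P : L2 d → L2 d) : Prop :=
  (∀ u, P (P u) = P u) ∧ ∀ u w, ⟪P u, w⟫_ℂ = ⟪u, P w⟫_ℂ

/-- `W = f(Δ_ω)` on the absolutely continuous subspace, for almost every `ω` -/
def IsEnergyFunction {d : ℕ} (μ : Measure ℝ) (U : Pot d → ℝ → L2 d → L2 d)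
    (W : Pot d → L2 d → L2 d) (f : ℝ → ℂ) : Prop :=
  ∀ᵐ ω ∂(iid d μ), ∀ u, IsAC (U ω) u → IsFunctionOf (U ω) f u (W ω u)

/-- bounded Borel function -/
def IsBoundedBorel (f : ℝ → ℂ) : Prop :=
  Measurable f ∧ ∃ R : ℝ, ∀ E, ‖f E‖ ≤ R

open Pool.Agent.H5R2 Pool.Agent.Y662.ERG

theorem sol_of_prop {d : ℕ} {ω : (Fin d → ℤ) → ℝ} {U : ℝ → L2 d → L2 d}
    (hU : IsPropagator ω U) (u : L2 d) :
    NB.IsSol (-1) (fun x => 2 * d + ω x) (fun t => U t u) (fun _ => 0) := by
  refine ⟨fun T => ⟨‖u‖, fun t _ => (hU.norm t u).le⟩, fun t x => ?_⟩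
  have h := hU.schrodinger u t x
  have e := NB.FIN.hop_eq ω (fun k => (U t u) k) x
  have e2 : -Complex.I * (NB.hopf (-1) (fun y => (U t u) y) x +
      (((fun x => 2 * d + ω x) x : ℝ) : ℂ) * (U t u) x) + ((0 : L2 d) : (Fin d → ℤ) → ℂ) x =
      -Complex.I * H ω (fun k => (U t u) k) x := by
    have e3 : H ω (fun k => (U t u) k) x = -(∑ i : Fin d,
        (((U t u) (x + Pi.single i 1) - (U t u) x) + ((U t u) (x - Pi.single i 1) - (U t u) x))) +
        (ω x : ℂ) * (U t u) x := rfl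
    rw [e3, ← e]
    simp
  rw [e2]
  exact h

theorem prop_of_grp {d : ℕ} {ω : (Fin d → ℤ) → ℝ} {W : NB.UG (NB.L2 (NB.Site d))}
    (hW : NB.IsGrp (-1) (fun x => 2 * d + ω x) W) : IsPropagator ω (fun t u => W.U t u) := by
  refine ⟨W.zero', W.norm', fun u t x => ?_⟩
  have h := (hW u).2 t x
  have e := NB.FIN.hop_eq ω (fun k => (W.U t u) k) x
  have e3 : H ω (fun k => (W.U t u) k) x = -(∑ i : Fin d,
        (((W.U t u) (x + Pi.single i 1) - (W.U t u) x) +
          ((W.U t u) (x - Pi.single i 1) - (W.U t u) x))) + (ω x : ℂ) * (W.U t u) x := rfl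
  rw [e3, ← e]
  simpa using h

theorem prop_eq {d : ℕ} {ω : (Fin d → ℤ) → ℝ} {W : NB.UG (NB.L2 (NB.Site d))}
    (hW : NB.IsGrp (-1) (fun x => 2 * d + ω x) W) {U : ℝ → L2 d → L2 d}
    (hU : IsPropagator ω U) (t : ℝ) (u : L2 d) : U t u = W.U t u := by
  have h := NB.ALL.a_UN d (-1) _ W hW (fun t => U t u) (fun _ => 0)
    continuous_const (sol_of_prop hU u) t
  simpa [hU.zero u] using h

/-- the bounded operator -/
noncomputable def toOp {d : ℕ} (A : L2 d → L2 d)
    (hl : ∀ (c : ℂ) (u w : L2 d), A (c • u + w) = c • A u + A w)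
    (hb : ∃ M : ℝ, ∀ u, ‖A u‖ ≤ M * ‖u‖) : L2 d →L[ℂ] L2 d :=
  have h0 : A 0 = 0 := by
    have h := hl (-1) 0 0
    simpa using h
  LinearMap.mkContinuousOfExistsBound
    { toFun := A
      map_add' := fun u w => by
        have h := hl 1 u w
        rwa [one_smul, one_smul] at h
      map_smul' := fun c u => by
        have h := hl c u 0
        rwa [add_zero, h0, add_zero] at h } hb

/-- from the fibres to the functional calculus -/
theorem func_of {d : ℕ} {K : ℝ} {ω : (Fin d → ℤ) → ℝ} {V : ℝ → L2 d → L2 d}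
    (hV : ∀ t u, V t u = Ex (Pool.Agent.TH980.IM.HV K ω) t u)
    {B : L2 d →L[ℂ] L2 d}
    (h2 : ∀ x, B (Pool.Agent.TH980.IM.HV K ω x) = Pool.Agent.TH980.IM.HV K ω (B x))
    {f : ℝ → ℂ} (hf : Measurable f) {R : ℝ} (hR : ∀ E, ‖f E‖ ≤ R)
    (h3 : ∀ ψ, ∀ᵐ E : ℝ, Ngl (Pool.Agent.TH980.IM.HV K ω) E (B ψ - f E • ψ))
    (h4 : ∀ ψ, Pool.Agent.TH980.IM.spm (Pool.Agent.TH980.IM.HV_sa K ω) ψ ≪ volume →
      ∀ t : ℝ, ⟪Ex (Pool.Agent.TH980.IM.HV K ω) t ψ, B ψ⟫_ℂ =
        ∫ E : ℝ, Complex.exp (Complex.I * t * E) * f E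
          ∂(Pool.Agent.TH980.IM.spm (Pool.Agent.TH980.IM.HV_sa K ω) ψ))
    {u : L2 d} (hu : IsAC V u) : IsFunctionOf V f u (B u) := by
  have hsa := Pool.Agent.TH980.IM.HV_sa K ω
  obtain ⟨m, hms, hm3⟩ := hu
  have hfin := hms.1
  have hmm : m = Pool.Agent.TH980.IM.spm hsa u :=
    spm_unique hsa u m fun t => by rw [← hV, hms.2 t]
  have hac' : Pool.Agent.TH980.IM.spm hsa u ≪ volume := hmm ▸ hm3
  refine ⟨m, hms, fun t => ?_, ?_⟩
  · rw [hV, h4 u hac' t, ← hmm]
  · have h5 := norm_of_ngl hsa h2 (c := f) hf hac' (h3 u)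
    rw [← hmm] at h5
    have h6 : ∫⁻ E, ‖f E‖ₑ ^ 2 ∂m = ENNReal.ofReal (∫ E, ‖f E‖ ^ 2 ∂m) := by
      rw [ofReal_integral_eq_lintegral_ofReal]
      · refine lintegral_congr fun E => ?_
        rw [← ofReal_norm, ← ENNReal.ofReal_pow (norm_nonneg _)]
      · refine Integrable.of_bound (hf.norm.pow_const 2).aestronglyMeasurable (R ^ 2)
          (ae_of_all _ fun E => ?_)
        rw [norm_pow, norm_norm]
        exact pow_le_pow_left₀ (norm_nonneg _) (hR E) 2
      · exact ae_of_all _ fun E => sq_nonneg _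
    have h7 : ‖B u‖ₑ ^ 2 = ENNReal.ofReal (‖B u‖ ^ 2) := by
      rw [← ofReal_norm, ENNReal.ofReal_pow (norm_nonneg _)]
    rw [h7, h6] at h5
    exact (ENNReal.ofReal_eq_ofReal_iff (by positivity)
      (integral_nonneg fun E => sq_nonneg _)).1 h5

/-- Let `d ≥ 1` and let `μ` be a law with bounded support which is not a point mass. For every
potential the unitary group exists and is unique. Every bounded conserved quantity `W` is, almost
surely, `f(Δ_ω)` on the absolutely continuous subspace, with a bounded Borel function `f` which does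
not depend on `ω`. If the `W_ω` are orthogonal projections, it is `1_S(Δ_ω)` there, with a Borel set
`S` which does not depend on `ω`. -/
theorem result (d : ℕ) (hd : 1 ≤ d) (μ : Measure ℝ) [IsProbabilityMeasure μ]
    (hb : ∃ K : ℝ, ∀ᵐ r ∂μ, |r| ≤ K) (hμ : ∀ r : ℝ, μ {r} ≠ 1) :
    (∀ ω : Pot d, ∃! U : ℝ → L2 d → L2 d, IsPropagator ω U) ∧
    ∀ U : Pot d → ℝ → L2 d → L2 d, (∀ ω, IsPropagator ω (U ω)) →
      ∀ W : Pot d → L2 d → L2 d, IsConserved μ U W →
        (∃ f : ℝ → ℂ, IsBoundedBorel f ∧ IsEnergyFunction μ U W f) ∧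
        ((∀ ω, IsProjection (W ω)) → ∃ S : Set ℝ, MeasurableSet S ∧
          IsEnergyFunction μ U W (S.indicator fun _ => 1)) := by
  obtain ⟨K, hK⟩ := hb
  refine ⟨fun ω => ?_, fun U hU Q hQ => ?_⟩
  · obtain ⟨W, hW⟩ := NB.ALL.a_EX d (-1) (fun x => 2 * d + ω x)
    refine ⟨fun t u => W.U t u, prop_of_grp hW, fun U hU => ?_⟩
    funext t u
    exact prop_eq hW hU t u
  · choose ev hev using fun ω : NB.Site d → ℝ => NB.ALL.a_EX d (-1) (fun x => 2 * d + ω x)
    have hUe : ∀ ω t u, U ω t u = (ev ω).U t u := fun ω t u => prop_eq (hev ω) (hU ω) t u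
    obtain ⟨M, hM⟩ := hQ.bounded
    obtain ⟨W, hWQ⟩ : ∃ W : Pot d → L2 d →L[ℂ] L2 d, ∀ ω u, W ω u = Q ω u :=
      ⟨fun ω => toOp (Q ω) (hQ.linear ω) ⟨M, hM ω⟩, fun ω u => rfl⟩
    simp only [← hWQ] at hM
    have hM0 : 0 ≤ M := by
      have h1 := hM 0 (NB.dl 0)
      rw [NB.STAT.norm_dl, mul_one] at h1
      exact (norm_nonneg _).trans h1
    have hcv : ∀ᵐ V ∂(NB.PP d μ), ∀ (z : NB.Site d)
        (S : NB.L2 (NB.Site d) →L[ℂ] NB.L2 (NB.Site d)), NB.IsShift z S → ∀ ψ,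
          W (fun y => V (y + z)) (S ψ) = S (W V ψ) := by
      have h1 : ∀ᵐ ω ∂(NB.PP d μ), ∀ (z : Fin d → ℤ) (u w : L2 d), (∀ j, w j = u (j + z)) →
        ∀ j, (W (fun k => ω (k + z)) w) j = (W ω u) (j + z) := by
        have h2 : ∀ᵐ ω ∂(NB.PP d μ), CovariantAt Q ω := hQ.covariant
        filter_upwards [h2] with ω hω z u w h j
        rw [hWQ, hWQ]
        exact hω z u w h j
      filter_upwards [h1] with ω hω z S hS ψ
      ext j
      rw [hω z ψ (S ψ) (fun k => hS ψ k) j, hS]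
    have hmW : ∀ (u : L2 d) (j : Fin d → ℤ), Measurable fun ω => (W ω u) j := by
      intro u j
      simp only [hWQ]
      exact hQ.measurable u j
    obtain ⟨W', hW1, hW2, hW3, hW4⟩ := Pool.Agent.R988.NQ.fix_cov hmW hcv
    have hb' : ∀ V ψ, ‖W' V ψ‖ ≤ M * ‖ψ‖ := by
      intro V ψ
      rcases hW1 V with h | h
      · rw [h]
        exact hM V ψ
      · rw [h, ContinuousLinearMap.zero_apply, norm_zero]
        positivity
    have hcm : ∀ᵐ ω ∂(NB.PP d μ), ∀ t x, W' ω ((ev ω).U t x) = (ev ω).U t (W' ω x) := by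
      have h1 : ∀ᵐ ω ∂(NB.PP d μ), Commutes (U ω) (Q ω) := hQ.conserved
      filter_upwards [h1, hW4] with ω h2 h3 t x
      rw [h3, ← hUe, ← hUe, hWQ, hWQ]
      exact h2 t x
    have hUx : ∀ ω : NB.Site d → ℝ, (∀ x, |ω x| ≤ K) → ∀ t u,
        U ω t u = Ex (Pool.Agent.TH980.IM.HV K ω) t u := by
      intro ω h1 t u
      rw [hUe, grp_Ex h1 (hev ω)]
    refine ⟨?_, fun hP => ?_⟩
    · show ∃ f : ℝ → ℂ, IsBoundedBorel f ∧ IsEnergyFunction μ U Q f
      obtain ⟨f, hf1, ⟨R, hR⟩, hf3⟩ :=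
        Pool.Agent.R988.NQ.main_gen hd hK hμ hev hb' hW2 hW3 hcm
      refine ⟨f, ⟨hf1, ⟨R, hR⟩⟩, ?_⟩
      have hf4 : ∀ᵐ ω ∂(NB.PP d μ), ∀ u, IsAC (U ω) u → IsFunctionOf (U ω) f u (Q ω u) := by
        filter_upwards [hf3, hW4] with ω ⟨h1, h2, h3, h4⟩ h5 u hu
        have h6 := func_of (hUx ω h1) h2 hf1 hR h3 h4 hu
        rw [h5, hWQ] at h6
        exact h6
      exact hf4
    · have hs' : Pool.Agent.R988.NQ.Sym W' := by
        intro V f g
        rcases hW1 V with h | h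
        · rw [h, hWQ, hWQ]
          exact (hP V).2 f g
        · rw [h]
          simp
      have hp' : ∀ V x, W' V (W' V x) = W' V x := by
        intro V x
        rcases hW1 V with h | h
        · rw [h, hWQ, hWQ]
          exact (hP V).1 x
        · rw [h]
          simp
      obtain ⟨S, hS, hf3⟩ :=
        Pool.Agent.R988.NQ.main_proj hd hK hμ hev hb' hW2 hW3 hcm hs' hp'
      refine ⟨S, hS, ?_⟩
      have hgm : Measurable (S.indicator fun _ => (1 : ℝ)) := measurable_const.indicator hS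
      have hgb : ∀ E, |S.indicator (fun _ => (1 : ℝ)) E| ≤ 1 := by
        intro E
        by_cases hE : E ∈ S
        · rw [Set.indicator_of_mem hE, abs_one]
        · rw [Set.indicator_of_notMem hE, abs_zero]
          exact zero_le_one
      have hcast : ∀ E, ((S.indicator (fun _ => (1 : ℝ)) E : ℝ) : ℂ) =
          S.indicator (fun _ => (1 : ℂ)) E := by
        intro E
        by_cases hE : E ∈ S
        · rw [Set.indicator_of_mem hE, Set.indicator_of_mem hE, Complex.ofReal_one]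
        · rw [Set.indicator_of_notMem hE, Set.indicator_of_notMem hE, Complex.ofReal_zero]
      have hf4 : ∀ᵐ ω ∂(NB.PP d μ), ∀ u, IsAC (U ω) u →
          IsFunctionOf (U ω) (S.indicator fun _ => 1) u (Q ω u) := by
        filter_upwards [hf3, hW4] with ω ⟨h1, h2, h3⟩ h5 u hu
        have h4 : ∀ ψ, Pool.Agent.TH980.IM.spm (Pool.Agent.TH980.IM.HV_sa K ω) ψ ≪ volume →
            ∀ t : ℝ, ⟪Ex (Pool.Agent.TH980.IM.HV K ω) t ψ, W' ω ψ⟫_ℂ =
              ∫ E : ℝ, Complex.exp (Complex.I * t * E) * (S.indicator (fun _ => (1 : ℂ)) E)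
                ∂(Pool.Agent.TH980.IM.spm (Pool.Agent.TH980.IM.HV_sa K ω) ψ) := by
          intro ψ hψ t
          rw [inner_of_ngl (Pool.Agent.TH980.IM.HV_sa K ω) h2 hgm hgb h3 hψ t]
          simp only [hcast]
        simp only [hcast] at h3
        have h6 := func_of (hUx ω h1) h2 (f := S.indicator fun _ => (1 : ℂ))
          (measurable_const.indicator hS) (R := 1) (fun E => ?_) h3 h4 hu
        · rw [h5, hWQ] at h6
          exact h6
        · rw [← hcast, Complex.norm_real]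
          exact hgb E
      exact hf4

end Pool.Agent.Results.MP_d0f69c_mp.ConstantsOfMotion
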