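import Pool.Agent.R988.NQ.Env

/-!
# The environment seen from the particle in the Anderson model

`Δ_ω = -Δ + ω` on `ℤ^d`, `ω_j` iid with any law of bounded support which is not a point mass, for
instance `P(ω_j = ±1) = 1/2`. In the state `u` the environment seen from the particle is
`ω(· + x)` with probability `|u(x)|²`. If the absolutely continuous subspace of `Δ_ω` is not zero,
then for almost every `ω` and for all its states `u`, whatever their localization in space, the time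
average of the law of the environment seen from the particle in the state `e^{-isΔ_ω} u` is in the
limit the law of `ω` weighted with the local density of states at the energy of the particle (and
averaged over the energy with the spectral measure of `u`), tested against any given bounded
measurable function of the environment.
-/

set_option autoImplicit false

open MeasureTheory Filter Topology
open scoped BigOperators ENNReal NNReal InnerProductSpace

namespace Pool.Agent.Results.MP_d0f69c_mp.EnvironmentLaw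

/-- `ℓ²(ℤ^d)` -/
abbrev L2 (d : ℕ) : Type := lp (fun _ : Fin d → ℤ => ℂ) 2

/-- potentials on `ℤ^d` -/
abbrev Pot (d : ℕ) : Type := (Fin d → ℤ) → ℝ

/-- the operator of the problem, `(Δ_ω u)(j) = -∑_{|n|=1} (u(j+n) - u(j)) + ω_j u(j)` (the unit
vectors `n` are `± e_i`) -/
noncomputable def H {d : ℕ} (ω : Pot d) (u : (Fin d → ℤ) → ℂ) (j : Fin d → ℤ) : ℂ :=
  -(∑ i : Fin d, ((u (j + Pi.single i 1) - u j) + (u (j - Pi.single i 1) - u j))) + (ω j : ℂ) * u j

/-- `U t = e^{-itΔ_ω}`: norm preserving maps of `ℓ²(ℤ^d)` with `U 0 = 1` and `i ∂_t (U_t u) = Δ_ω U_t u`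
at every site -/
structure IsPropagator {d : ℕ} (ω : Pot d) (U : ℝ → L2 d → L2 d) : Prop where
  zero : ∀ u, U 0 u = u
  norm : ∀ t u, ‖U t u‖ = ‖u‖
  schrodinger : ∀ u t j, HasDerivAt (fun s => (U s u) j)
    (-Complex.I * H ω (fun k => (U t u) k) j) t

/-- the law of iid variables with law `μ` on `ℤ^d` -/
noncomputable def iid (d : ℕ) (μ : Measure ℝ) : Measure (Pot d) :=
  Measure.infinitePi fun _ => μ

/-- `m` is the spectral measure of `u`: the finite measure with
`⟨u, e^{-itΔ_ω} u⟩ = ∫ e^{-itE} dm(E)` -/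
def IsSpectral {d : ℕ} (U : ℝ → L2 d → L2 d) (u : L2 d) (m : Measure ℝ) : Prop :=
  IsFiniteMeasure m ∧
    ∀ t : ℝ, ⟪u, U t u⟫_ℂ = ∫ E : ℝ, Complex.exp (-(Complex.I * t * E)) ∂m

/-- `u` is in the absolutely continuous subspace -/
def IsAC {d : ℕ} (U : ℝ → L2 d → L2 d) (u : L2 d) : Prop :=
  ∃ m : Measure ℝ, IsSpectral U u m ∧ m ≪ volume

/-- `p` is the orthogonal projection of `u` to the absolutely continuous subspace -/
def IsACPart {d : ℕ} (U : ℝ → L2 d → L2 d) (u p : L2 d) : Prop :=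
  IsAC U p ∧ ∀ w : L2 d, IsAC U w → ⟪u - p, w⟫_ℂ = 0

/-- `p(ω)` is the part of `δ_0` in the absolutely continuous subspace of `Δ_ω`, and the absolutely
continuous finite measure `κ` is the density of states of this subspace, that is,
`E ⟨p, e^{-itΔ_ω} p⟩ = ∫ e^{-itE} dκ(E)` for all `t` -/
structure IsDensity {d : ℕ} (μ : Measure ℝ) (U : Pot d → ℝ → L2 d → L2 d)
    (p : Pot d → L2 d) (κ : Measure ℝ) : Prop where
  meas : AEStronglyMeasurable p (iid d μ)
  part : ∀ᵐ ω ∂(iid d μ), IsACPart (U ω) (lp.single 2 0 1) (p ω)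
  finite : IsFiniteMeasure κ
  ac : κ ≪ volume
  fourier : ∀ t : ℝ, ∫ ω, ⟪p ω, U ω t (p ω)⟫_ℂ ∂(iid d μ) =
    ∫ E : ℝ, Complex.exp (-(Complex.I * t * E)) ∂κ

/-- the bounded Borel function `G` is the average of the function `g` of the environment under the
law of `ω` weighted with the local density of states of the absolutely continuous subspace at the
energy `E`: `G dκ = E[g(ω) dm_{p(ω)}]`, where `m_{p(ω)}` is the spectral measure of `p(ω)`, that is,
`E[g(ω) ⟨p, e^{-itΔ_ω} p⟩] = ∫ e^{-itE} G(E) dκ(E)` for all `t`. This determines `G` up to `κ`-null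
sets. -/
structure IsEnvironmentAverage {d : ℕ} (μ : Measure ℝ) (U : Pot d → ℝ → L2 d → L2 d)
    (p : Pot d → L2 d) (κ : Measure ℝ) (g : Pot d → ℝ) (G : ℝ → ℝ) : Prop where
  meas : Measurable G
  bounded : ∃ M : ℝ, ∀ E, |G E| ≤ M
  formula : ∀ t : ℝ, ∫ ω, (g ω : ℂ) * ⟪p ω, U ω t (p ω)⟫_ℂ ∂(iid d μ) =
    ∫ E : ℝ, Complex.exp (-(Complex.I * t * E)) * G E ∂κ

/-- the expectation of the function `g` of the environment seen from the particle in the state
`u` -/
noncomputable def seen {d : ℕ} (ω : Pot d) (g : Pot d → ℝ) (u : L2 d) : ℝ :=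
  ∑' x : Fin d → ℤ, g (fun k => ω (k + x)) * ‖u x‖ ^ 2

/-- in all states `u` of the absolutely continuous subspace, the time average over `[0,T]` of the
expectation of `g` of the environment seen from the particle tends to `∫ G dm`, `m` the spectral
measure of `u` -/
def Equidistributed {d : ℕ} (ω : Pot d) (U : ℝ → L2 d → L2 d) (g : Pot d → ℝ) (G : ℝ → ℝ) : Prop :=
  ∀ u : L2 d, IsAC U u → ∀ m : Measure ℝ, IsSpectral U u m →
    Tendsto (fun T : ℝ => T⁻¹ * ∫ s in (0 : ℝ)..T, seen ω g (U s u)) atTop (𝓝 (∫ E, G E ∂m))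

open Pool.Agent.H5R2 Pool.Agent.Y662.ERG

theorem sol_of_prop {d : ℕ} {ω : (Fin d → ℤ) → ℝ} {U : ℝ → L2 d → L2 d}
    (hU : IsPropagator ω U) (u : L2 d) :
    NB.IsSol (-1) (fun x => 2 * d + ω x) (fun t => U t u) (fun _ => 0) := by
  refine ⟨fun T => ⟨‖u‖, fun t _ => (hU.norm t u).le⟩, fun t x => ?_⟩
  have h := hU.schrodinger u t x
  have e := NB.FIN.hop_eq ω (fun k => (U t u) k) x
  have e2 : -Complex.I * (NB.hopf (-1) (fun y => (U t u) y) x +
      (((fun x => 2 * d + ω x) x : ℝ) : ℂ) * (U t u) x) + ((0 : L2 d) : (Fin d → ℤ) → ℂ) x =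
      -Complex.I * H ω (fun k => (U t u) k) x := by
    have e3 : H ω (fun k => (U t u) k) x = -(∑ i : Fin d,
        (((U t u) (x + Pi.single i 1) - (U t u) x) + ((U t u) (x - Pi.single i 1) - (U t u) x))) +
        (ω x : ℂ) * (U t u) x := rfl
    rw [e3, ← e]
    simp
  rw [e2]
  exact h

theorem prop_of_grp {d : ℕ} {ω : (Fin d → ℤ) → ℝ} {W : NB.UG (NB.L2 (NB.Site d))}
    (hW : NB.IsGrp (-1) (fun x => 2 * d + ω x) W) : IsPropagator ω (fun t u => W.U t u) := by
  refine ⟨W.zero', W.norm', fun u t x => ?_⟩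
  have h := (hW u).2 t x
  have e := NB.FIN.hop_eq ω (fun k => (W.U t u) k) x
  have e3 : H ω (fun k => (W.U t u) k) x = -(∑ i : Fin d,
        (((W.U t u) (x + Pi.single i 1) - (W.U t u) x) +
          ((W.U t u) (x - Pi.single i 1) - (W.U t u) x))) + (ω x : ℂ) * (W.U t u) x := rfl
  rw [e3, ← e]
  simpa using h

theorem prop_eq {d : ℕ} {ω : (Fin d → ℤ) → ℝ} {W : NB.UG (NB.L2 (NB.Site d))}
    (hW : NB.IsGrp (-1) (fun x => 2 * d + ω x) W) {U : ℝ → L2 d → L2 d}
    (hU : IsPropagator ω U) (t : ℝ) (u : L2 d) : U t u = W.U t u := by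
  have h := NB.ALL.a_UN d (-1) _ W hW (fun t => U t u) (fun _ => 0)
    continuous_const (sol_of_prop hU u) t
  simpa [hU.zero u] using h

/-- the expectation as a scalar product with the average -/
theorem inner_average {d : ℕ} (W : NB.UG (NB.L2 (NB.Site d))) (v : L2 d →L[ℂ] L2 d) (u : L2 d)
    (T : ℝ) :
    (⟪u, ((T : ℂ)⁻¹) • ∫ s in (0 : ℝ)..T, W.U (-s) (v (W.U s u))⟫_ℂ).re =
      T⁻¹ * ∫ s in (0 : ℝ)..T, (⟪W.U s u, v (W.U s u)⟫_ℂ).re := by
  have hc : Continuous fun s : ℝ => W.U (-s) (v (W.U s u)) := NB.LIMB.cont_P W v u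
  have h1 : ⟪u, ∫ s in (0 : ℝ)..T, W.U (-s) (v (W.U s u))⟫_ℂ =
      ∫ s in (0 : ℝ)..T, ⟪u, W.U (-s) (v (W.U s u))⟫_ℂ := by
    have := (innerSL ℂ u).intervalIntegral_comp_comm
      (hc.intervalIntegrable (μ := volume) 0 T)
    simpa using this.symm
  have h2 : ∀ s : ℝ, ⟪u, W.U (-s) (v (W.U s u))⟫_ℂ = ⟪W.U s u, v (W.U s u)⟫_ℂ := by
    intro s
    rw [NB.STAT.inner_adj W (-s) u (v (W.U s u)), neg_neg]
  have h3 : Continuous fun s : ℝ => ⟪u, W.U (-s) (v (W.U s u))⟫_ℂ :=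
    continuous_const.inner hc
  rw [inner_smul_right, h1]
  have h4 : (∫ s in (0 : ℝ)..T, ⟪u, W.U (-s) (v (W.U s u))⟫_ℂ).re =
      ∫ s in (0 : ℝ)..T, (⟪W.U s u, v (W.U s u)⟫_ℂ).re := by
    have := Complex.reCLM.intervalIntegral_comp_comm
      (h3.intervalIntegrable (μ := volume) 0 T)
    simp only [Complex.reCLM_apply] at this
    rw [← this]
    simp only [h2]
  rw [← Complex.ofReal_inv, Complex.re_ofReal_mul, h4]

/-- Let `d ≥ 1` and let `μ` be a law with bounded support which is not a point mass. For every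
potential the unitary group exists and is unique. There are the part `p(ω)` of `δ_0` in the
absolutely continuous subspace and its density of states `κ` such that for every bounded measurable
function `g` of the environment there is its average `G(E)` over the environments weighted with the
local density of states, and for almost every `ω` the time averages of the expectation of `g` of
the environment seen from the particle tend to `∫ G dm`, in all states of the absolutely continuous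
subspace. -/
theorem result (d : ℕ) (hd : 1 ≤ d) (μ : Measure ℝ) [IsProbabilityMeasure μ]
    (hb : ∃ K : ℝ, ∀ᵐ r ∂μ, |r| ≤ K) (hμ : ∀ r : ℝ, μ {r} ≠ 1) :
    (∀ ω : Pot d, ∃! U : ℝ → L2 d → L2 d, IsPropagator ω U) ∧
    ∀ U : Pot d → ℝ → L2 d → L2 d, (∀ ω, IsPropagator ω (U ω)) →
      ∃ (p : Pot d → L2 d) (κ : Measure ℝ), IsDensity μ U p κ ∧
        ∀ g : Pot d → ℝ, Measurable g → (∃ R : ℝ, ∀ ω, |g ω| ≤ R) →
          ∃ G : ℝ → ℝ, IsEnvironmentAverage μ U p κ g G ∧
            ∀ᵐ ω ∂(iid d μ), Equidistributed ω (U ω) g G := by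
  obtain ⟨K, hK⟩ := hb
  refine ⟨fun ω => ?_, fun U hU => ?_⟩
  · obtain ⟨W, hW⟩ := NB.ALL.a_EX d (-1) (fun x => 2 * d + ω x)
    refine ⟨fun t u => W.U t u, prop_of_grp hW, fun U hU => ?_⟩
    funext t u
    exact prop_eq hW hU t u
  · choose ev hev using fun ω : NB.Site d → ℝ => NB.ALL.a_EX d (-1) (fun x => 2 * d + ω x)
    have hUe : ∀ ω t u, U ω t u = (ev ω).U t u := fun ω t u => prop_eq (hev ω) (hU ω) t u
    obtain ⟨κ, hκ1, hκ2, hκ3, hmain⟩ := Pool.Agent.R988.NQ.main_sym hd hK hμ hev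
    have hbd := bd_ae (d := d) hK
    have hac_iff : ∀ ω : (Fin d → ℤ) → ℝ, (∀ x, |ω x| ≤ K) → ∀ u : L2 d,
        IsAC (U ω) u ↔ Pool.Agent.TH980.IM.spm (Pool.Agent.TH980.IM.HV_sa K ω) u ≪ volume := by
      intro ω h1 u
      have hUx : ∀ t u, U ω t u = Ex (Pool.Agent.TH980.IM.HV K ω) t u := fun t u => by
        rw [hUe, grp_Ex h1 (hev ω)]
      constructor
      · rintro ⟨m, ⟨hm1, hm2⟩, hm3⟩
        have hmm : m = Pool.Agent.TH980.IM.spm (Pool.Agent.TH980.IM.HV_sa K ω) u :=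
          spm_unique _ u m fun t => by rw [← hUx, hm2 t]
        rw [← hmm]
        exact hm3
      · intro h
        refine ⟨_, ⟨inferInstance, fun t => ?_⟩, h⟩
        rw [hUx, Ex_spm]
    refine ⟨fun ω => PA K ω (NB.dl 0), κ, ⟨?_, ?_, hκ1, hκ2, fun t => ?_⟩, fun g hgm hgb => ?_⟩
    · exact PA_aesm K μ aestronglyMeasurable_const
    · have hbd' : ∀ᵐ ω ∂(iid d μ), ∀ x, |ω x| ≤ K := hbd
      filter_upwards [hbd'] with ω h1
      refine ⟨(hac_iff ω h1 _).2 (acP_ac _ _), fun w hw => ?_⟩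
      exact acP_orth _ ((hac_iff ω h1 w).1 hw) _
    · simp only [hUe]
      exact hκ3 t
    obtain ⟨R, hg⟩ := hgb
    obtain ⟨f, Bop, hf1, hf2, hq', hB, hmic⟩ := hmain (Pool.Agent.R988.NQ.mg g R hg) R
      (Pool.Agent.R988.NQ.fld_mg hg hgm) (Pool.Agent.R988.NQ.mg_symm g R hg)
    refine ⟨f, ⟨hf1, ⟨R, hf2⟩, fun t => ?_⟩, ?_⟩
    · have h1 := Pool.Agent.R988.NQ.env_law (ν := μ) hK hev hg hgm t
      rw [hmic t] at h1
      have h2 := congrArg (starRingEnd ℂ) h1
      rw [← integral_conj, ← integral_conj] at h2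
      have h3 : ∫ ω, (g ω : ℂ) * ⟪PA K ω (NB.dl 0), U ω t (PA K ω (NB.dl 0))⟫_ℂ ∂(iid d μ) =
          ∫ ω, (starRingEnd ℂ) ((g ω : ℂ) *
            ⟪(ev ω).U t (PA K ω (NB.dl 0)), PA K ω (NB.dl 0)⟫_ℂ) ∂(NB.PP d μ) := by
        show ∫ ω, (g ω : ℂ) * ⟪PA K ω (NB.dl 0), U ω t (PA K ω (NB.dl 0))⟫_ℂ ∂(NB.PP d μ) = _
        refine integral_congr_ae (ae_of_all _ fun ω => ?_)
        show (g ω : ℂ) * ⟪PA K ω (NB.dl 0), U ω t (PA K ω (NB.dl 0))⟫_ℂ =
          (starRingEnd ℂ) ((g ω : ℂ) * ⟪(ev ω).U t (PA K ω (NB.dl 0)), PA K ω (NB.dl 0)⟫_ℂ)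
        rw [map_mul, Complex.conj_ofReal, inner_conj_symm, hUe]
      rw [h3, ← h2]
      refine integral_congr_ae (ae_of_all _ fun E => ?_)
      show (starRingEnd ℂ) (Complex.exp (Complex.I * t * E) * f E) =
        Complex.exp (-(Complex.I * t * E)) * f E
      rw [map_mul, Complex.conj_ofReal, ← Complex.exp_conj]
      congr 2
      simp
    have hq : ∀ᵐ ω ∂(iid d μ), ∀ x, Tendsto (fun N : ℕ => NB.avP (ev ω)
        (Pool.Agent.R988.NQ.mg g R hg ω) N x) atTop (𝓝 (Bop ω x)) := hq'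
    have hB' : ∀ᵐ ω ∂(iid d μ), (∀ x, |ω x| ≤ K) ∧
          (∀ x, Bop ω (Pool.Agent.TH980.IM.HV K ω x) =
            Pool.Agent.TH980.IM.HV K ω (Bop ω x)) ∧
          ∀ ψ, ∀ᵐ E : ℝ, Ngl (Pool.Agent.TH980.IM.HV K ω) E (Bop ω ψ - ((f E : ℝ) : ℂ) • ψ) := hB
    filter_upwards [hq, hB'] with ω hω ⟨h1, h2, h3⟩ u hu m hm
    have hsa := Pool.Agent.TH980.IM.HV_sa K ω
    have hUx : ∀ t u, U ω t u = Ex (Pool.Agent.TH980.IM.HV K ω) t u := fun t u => by
      rw [hUe, grp_Ex h1 (hev ω)]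
    have hfin := hm.1
    have hmm : m = Pool.Agent.TH980.IM.spm hsa u :=
      spm_unique hsa u m fun t => by rw [← hUx, hm.2 t]
    have hac' : Pool.Agent.TH980.IM.spm hsa u ≪ volume := (hac_iff ω h1 u).1 hu
    have h7 : (⟪u, Bop ω u⟫_ℂ).re = ∫ E, f E ∂m := by
      have h8 : ⟪U ω 0 u, Bop ω u⟫_ℂ =
          ∫ E : ℝ, Complex.exp (Complex.I * ((0 : ℝ) : ℂ) * E) * f E ∂m := by
        rw [hUx, inner_of_ngl hsa h2 hf1 hf2 h3 hac' 0, ← hmm]
      rw [(hU ω).zero] at h8
      rw [h8]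
      have h9 : ∀ E : ℝ, Complex.exp (Complex.I * ((0 : ℝ) : ℂ) * E) * f E = ((f E : ℝ) : ℂ) := by
        intro E
        simp
      simp only [h9]
      rw [integral_complex_ofReal, Complex.ofReal_re]
    rw [← h7]
    have h4 := Pool.Agent.R988.NQ.real_times' (ev ω) (Pool.Agent.R988.NQ.mg g R hg ω) u
      (Bop ω u) (hω u)
    have h11 : Continuous fun y : L2 d => (⟪u, y⟫_ℂ).re :=
      Complex.continuous_re.comp (continuous_const.inner continuous_id)
    have h10 := (h11.tendsto _).comp h4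
    refine h10.congr fun T => ?_
    have h12 := inner_average (ev ω) (Pool.Agent.R988.NQ.mg g R hg ω) u T
    refine h12.trans ?_
    congr 1
    refine intervalIntegral.integral_congr fun s _ => ?_
    show (⟪(ev ω).U s u, Pool.Agent.R988.NQ.mg g R hg ω ((ev ω).U s u)⟫_ℂ).re =
      seen ω g (U ω s u)
    rw [Pool.Agent.R988.NQ.mg_exp, hUe]
    rfl

end Pool.Agent.Results.MP_d0f69c_mp.EnvironmentLaw
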